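import Pool.Agent.X22.SE2

/-!
# The moments of the traces of Frobenius on the second cohomology of surface sections of arbitrary threefolds, with coefficients in arbitrarily thin families

Nothing is used besides Mathlib in the statement.
-/

set_option autoImplicit false

namespace Pool.Agent.Results.MP_2b5912_ag.FewDigitSurfaceSections

open Finset
open scoped Nat

/-- The value at `x` of the form of degree `D` in `x_0, ..., x_n` with the coefficients `v_l`; here the `d` monomials of degree `D` are numbered with a bijection `E`. -/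
def form {R : Type} [CommRing R] {n D d : ℕ} (E : Fin d ≃ {μ : Fin (n + 1) → ℕ // ∑ i, μ i = D}) (v : Fin d → R) (x : Fin (n + 1) → R) : R :=
  ∑ l, v l * ∏ i, x i ^ (E l).1 i

/-- The number of the points of the subset of `ℙ ^ n (𝔽_p)` whose cone is `V`. -/
noncomputable def points (p : ℕ) {n : ℕ} (V : Set (Fin (n + 1) → ZMod p)) : ℝ :=
  (Nat.card {x : Fin (n + 1) → ZMod p // x ∈ V ∧ x ≠ 0} : ℝ) / (p - 1)

/-- The number of the points of the section `F = 0` of the subset `V` of `ℙ ^ n (𝔽_p)`, where `F` is the form with the coefficients `v`. -/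
noncomputable def sectionPoints (p : ℕ) {n D d : ℕ} (E : Fin d ≃ {μ : Fin (n + 1) → ℕ // ∑ i, μ i = D}) (V : Set (Fin (n + 1) → ZMod p)) (v : Fin d → ZMod p) : ℝ :=
  (Nat.card {x : Fin (n + 1) → ZMod p // (x ∈ V ∧ x ≠ 0) ∧ form E v x = 0} : ℝ) / (p - 1)

/-- The normalised trace of Frobenius on the vanishing part of the cohomology of the section: `(#(V ∩ {F = 0}) - #V / p) / √(#V / p)`. -/
noncomputable def trace (p : ℕ) {n D d : ℕ} (E : Fin d ≃ {μ : Fin (n + 1) → ℕ // ∑ i, μ i = D}) (V : Set (Fin (n + 1) → ZMod p)) (v : Fin d → ZMod p) : ℝ :=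
  (sectionPoints p E V v - points p V / p) / √(points p V / p)

/-- The moments of the normal distribution: `μ_k = (k - 1)!! = 1 · 3 · 5 ⋯ (k - 1)` for even `k` and `0` for odd `k`. If `k ≤ N` it is the dimension of the space of the invariants of the orthogonal group `O (N)` in
the `k`-th tensor power of its standard representation. -/
noncomputable def mu (k : ℕ) : ℝ := if Even k then ((k - 1)‼ : ℕ) else 0

section
variable {r dd : ℕ} {n D d : Fin r → ℕ} (E : ∀ i, Fin (d i) ≃ {μ : Fin (n i + 1) → ℕ // ∑ j, μ j = D i}) (e : (Σ i, Fin (d i)) ≃ Fin dd)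
    (V : ∀ (i : Fin r) (p : ℕ), Set (Fin (n i + 1) → ZMod p))

/-- The normalised trace for the `i`-th section; all the coefficients of all the `r` forms are the numbers `m_0, ..., m_(dd - 1)`, numbered with a bijection `e`. -/
noncomputable def tr (m : Fin dd → ℕ) (p : ℕ) (i : Fin r) : ℝ := trace p (E i) (V i p) (fun j => (m (e ⟨i, j⟩) : ZMod p))

/-- The sets `V_i` have at least `p ^ 2` points modulo `p`, and `∏ (1 + t_i ^ (2 ⌊(D_i + 1) / 2⌋)) ≤ p` for the normalised traces `t_i` (at the primes of good reduction the `t_i` are bounded by Deligne's theorem). -/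
def Good (m : Fin dd → ℕ) (p : ℕ) : Prop := (∀ i, (p : ℝ) ^ 2 ≤ points p (V i p)) ∧ ∏ i, (1 + tr E e V m p i ^ (2 * ((D i + 1) / 2))) ≤ (p : ℝ)

open Classical in
/-- The sum `∑ w (p) (∏ t_i ^ k_i - ∏ μ_(k_i)) p ^ (- i τ)` over the odd primes `p ≤ x` with the property `Good`. -/
noncomputable def partialSum (m : Fin dd → ℕ) (k : Fin r → ℕ) (w : ℕ → ℂ) (τ : ℝ) (x : ℕ) : ℂ :=
  ∑ p ∈ (range (x + 1)).filter (fun p => (p.Prime ∧ p ≠ 2) ∧ Good E e V m p),
    w p * ((∏ i, tr E e V m p i ^ k i - ∏ i, mu (k i) : ℝ) : ℂ) * Complex.exp (((-(τ * Real.log p) : ℝ) : ℂ) * Complex.I)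

end

/-- The digit number `i` (counted from the right, beginning with `0`) of `n` in base `b`. -/
def digit (b i n : ℕ) : ℕ := n / b ^ i % b

/-- The number which arises from the number `N` with at most `K` digits in base `b`, if for every `i ∈ S`
the digit number `i` is replaced by `f i`. -/
def change (b K N : ℕ) (f : ℕ → ℕ) (S : Finset ℕ) : ℕ :=
  ∑ i ∈ range K, (if i ∈ S then f i else digit b i N) * b ^ i

open Classical in
/-- The number of the choices of `s l` of `K l` positions for all `l < d` for which the vector of the numbers obtained by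
changing the digits of the `N l` at the chosen positions (according to `f l`) does not have the property `P`. -/
noncomputable def exceptions {d : ℕ} (b : ℕ) (K s N : Fin d → ℕ) (f : Fin d → ℕ → ℕ) (P : (Fin d → ℕ) → Prop) : ℕ :=
  ((Fintype.piFinset (fun l => powersetCard (s l) (range (K l)))).filter
    (fun S => ¬ P (fun l => change b (K l) (N l) (f l) (S l)))).card

open Pool.Agent.X22.ND (op mem_op mzd_law absorb hp norm_hp mean_mono cardop_le sum_inv_sqrt)
open Pool.Agent.TH894.NE (mean mean_mul mean_const)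

section
variable {r dd : ℕ} {n D d : Fin r → ℕ} (E : ∀ i, Fin (d i) ≃ {μ : Fin (n i + 1) → ℕ // ∑ j, μ j = D i}) (e : (Σ i, Fin (d i)) ≃ Fin dd)
    (V : ∀ (i : Fin r) (p : ℕ), Set (Fin (n i + 1) → ZMod p))

/-- the product of the high powers -/
noncomputable def Qf (p : ℕ) (m : Fin dd → ℕ) : ℝ := ∏ i, (1 + tr E e V m p i ^ (2 * ((D i + 1) / 2)))

/-- the product of the powers -/
noncomputable def pr (k : Fin r → ℕ) (p : ℕ) (m : Fin dd → ℕ) : ℝ := ∏ i, tr E e V m p i ^ k i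

open Classical in
/-- the truncated difference -/
noncomputable def zz (k : Fin r → ℕ) (p : ℕ) (m : Fin dd → ℕ) : ℝ := if Good E e V m p then pr E e V k p m - ∏ i, mu (k i) else 0

lemma tr_mod (m : Fin dd → ℕ) (p : ℕ) (i : Fin r) : tr E e V (fun l => m l % p) p i = tr E e V m p i := by
  unfold tr
  simp only [ZMod.natCast_mod]

lemma zz_mod (k : Fin r → ℕ) (p : ℕ) (m : Fin dd → ℕ) : zz E e V k p m = zz E e V k p (fun l => m l % p) := by
  have h1 : Good E e V (fun l => m l % p) p ↔ Good E e V m p := by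
    unfold Good
    simp only [tr_mod]
  have h2 : pr E e V k p (fun l => m l % p) = pr E e V k p m := by
    unfold pr
    simp only [tr_mod]
  unfold zz
  by_cases hG : Good E e V m p
  · rw [if_pos hG, if_pos (h1.2 hG), h2]
  · rw [if_neg hG, if_neg (fun h => hG (h1.1 h))]

lemma Qf_one (p : ℕ) (m : Fin dd → ℕ) : 1 ≤ Qf E e V p m := by
  unfold Qf
  have h : ∀ i ∈ (univ : Finset (Fin r)), (1 : ℝ) ≤ 1 + tr E e V m p i ^ (2 * ((D i + 1) / 2)) := by
    intro i _
    have : 0 ≤ tr E e V m p i ^ (2 * ((D i + 1) / 2)) := by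
      rw [pow_mul]
      positivity
    linarith
  calc (1 : ℝ) = ∏ i : Fin r, (1 : ℝ) := by rw [prod_const_one]
    _ ≤ _ := prod_le_prod (fun i _ => zero_le_one) h

lemma pr_sq (k : Fin r → ℕ) (hk : ∀ i, k i ≤ (D i + 1) / 2) (p : ℕ) (m : Fin dd → ℕ) : pr E e V k p m ^ 2 ≤ Qf E e V p m := by
  unfold pr Qf
  rw [← prod_pow]
  apply prod_le_prod (fun i _ => sq_nonneg _)
  intro i _
  obtain ⟨t, ht⟩ : ∃ t, t = tr E e V m p i := ⟨_, rfl⟩
  rw [← ht, ← pow_mul]
  have h1 : t ^ (k i * 2) = |t| ^ (k i * 2) := by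
    rw [mul_comm, pow_mul, pow_mul, sq_abs]
  have h2 : t ^ (2 * ((D i + 1) / 2)) = |t| ^ (2 * ((D i + 1) / 2)) := by
    rw [pow_mul, pow_mul, sq_abs]
  have hle : k i * 2 ≤ 2 * ((D i + 1) / 2) := by
    have := hk i
    omega
  rw [h1, h2]
  rcases le_total |t| 1 with h | h
  · have h3 : |t| ^ (k i * 2) ≤ 1 := pow_le_one₀ (abs_nonneg _) h
    have h4 : 0 ≤ |t| ^ (2 * ((D i + 1) / 2)) := by positivity
    linarith
  · have h3 : |t| ^ (k i * 2) ≤ |t| ^ (2 * ((D i + 1) / 2)) := pow_le_pow_right₀ h hle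
    linarith

lemma pr_abs (k : Fin r → ℕ) (hk : ∀ i, k i ≤ (D i + 1) / 2) (p : ℕ) (m : Fin dd → ℕ) : |pr E e V k p m| ≤ √(Qf E e V p m) :=
  Real.abs_le_sqrt (pr_sq E e V k hk p m)

lemma zz_abs (k : Fin r → ℕ) (hk : ∀ i, k i ≤ (D i + 1) / 2) (p : ℕ) (hp1 : 1 ≤ p) (m : Fin dd → ℕ) : |zz E e V k p m| ≤ (1 + |∏ i, mu (k i)|) * √(p : ℝ) := by
  unfold zz
  split_ifs with hG
  · have h1 := pr_abs E e V k hk p m
    have h2 : √(Qf E e V p m) ≤ √(p : ℝ) := Real.sqrt_le_sqrt hG.2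
    have h3 : (1 : ℝ) ≤ √(p : ℝ) := by
      rw [Real.one_le_sqrt]
      exact_mod_cast hp1
    refine (abs_sub _ _).trans ?_
    have h4 : 0 ≤ |∏ i, mu (k i)| := abs_nonneg _
    nlinarith
  · rw [abs_zero]
    positivity

lemma zz_sq (k : Fin r → ℕ) (hk : ∀ i, k i ≤ (D i + 1) / 2) (p : ℕ) (m : Fin dd → ℕ) : zz E e V k p m ^ 2 ≤ 2 * Qf E e V p m + 2 * |∏ i, mu (k i)| ^ 2 := by
  have h0 := Qf_one E e V p m
  unfold zz
  split_ifs with hG
  · have h1 := pr_sq E e V k hk p m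
    rw [sq_abs]
    nlinarith [sq_nonneg (pr E e V k p m + ∏ i, mu (k i))]
  · have : 0 ≤ |∏ i, mu (k i)| ^ 2 := by positivity
    nlinarith

lemma zz_diff (k : Fin r → ℕ) (hk : ∀ i, k i ≤ (D i + 1) / 2) (p : ℕ) (hp1 : 1 ≤ p) (hN : ∀ i, (p : ℝ) ^ 2 ≤ points p (V i p)) (m : Fin dd → ℕ) :
    |zz E e V k p m - (pr E e V k p m - ∏ i, mu (k i))| ≤ (1 + |∏ i, mu (k i)|) * (1 / √(p : ℝ)) * Qf E e V p m := by
  have h0 := Qf_one E e V p m
  have hp1' : (1 : ℝ) ≤ p := by exact_mod_cast hp1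
  have h3 : (1 : ℝ) ≤ √(p : ℝ) := Real.one_le_sqrt.2 hp1'
  unfold zz
  split_ifs with hG
  · rw [sub_self, abs_zero]
    positivity
  · have hQ : (p : ℝ) < Qf E e V p m := by
      by_contra hcon
      exact hG ⟨hN, not_lt.1 hcon⟩
    rw [zero_sub, abs_neg]
    refine (abs_sub _ _).trans ?_
    have h1 := pr_abs E e V k hk p m
    have hQ0 : 0 ≤ Qf E e V p m := by linarith
    have h4 : √(Qf E e V p m) ≤ 1 / √(p : ℝ) * Qf E e V p m := by
      have h5 : √(p : ℝ) ≤ √(Qf E e V p m) := Real.sqrt_le_sqrt hQ.le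
      rw [one_div, inv_mul_eq_div, le_div_iff₀ (by linarith)]
      calc √(Qf E e V p m) * √(p : ℝ) ≤ √(Qf E e V p m) * √(Qf E e V p m) := by gcongr
        _ = _ := Real.mul_self_sqrt hQ0
    have h6 : 1 ≤ 1 / √(p : ℝ) * Qf E e V p m := by
      rw [one_div, inv_mul_eq_div, le_div_iff₀ (by linarith), one_mul]
      have : √(p : ℝ) ≤ p := by
        rw [Real.sqrt_le_left (by linarith)]
        nlinarith
      linarith
    have h7 : 0 ≤ |∏ i, mu (k i)| := abs_nonneg _
    calc |pr E e V k p m| + |∏ i, mu (k i)| ≤ 1 / √(p : ℝ) * Qf E e V p m + |∏ i, mu (k i)| * (1 / √(p : ℝ) * Qf E e V p m) := by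
          have := le_mul_of_one_le_right h7 h6
          linarith
      _ = _ := by ring

end

/-- **Sections of arbitrary varieties.** Let a base `b ≥ 2`, an integer `r ≥ 1`, integers `n_i, D_i ≥ 0` (`i = 1, ..., r`), `A ≥ 0` and `δ > 0` be given; let `dd` be the number of all
the coefficients of `r` forms `F_i` of the degrees `D_i` in `n_i + 1` variables. There are `c > 0` and `y₀` such that for all integers `s l`, `K l` (`l < dd`), `y` with `2 s l ≤ K l` and `y ≥ y₀` the following holds.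

Let `0 ≤ N l < b ^ K l` be arbitrary integers, prescribe for every position `j` a digit `a l j` different from the digit of `N l` in base `b`, and let `Λ x` be for every `x` any set of at most `x ^ A` systems, each
of them consisting of a function `w` with `|w (p)| ≤ 1` and of arbitrary sets `V_i (p)` of points of `ℙ ^ (n_i) (𝔽_p)` (for instance the points of arbitrary projective threefolds `X_i`).
If one chooses `s l` of the `K l` positions and replaces the digits of `N l` at these positions, then for all but at most a proportion `1 / y ^ A` of the choices the `r` forms `F_i` whose coefficients are the numbers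
`m l` obtained have the following property: for all integers `x` with `y ≤ x ≤ exp (c s l)` for all `l`, all systems of `Λ x`, all exponents `k_i ≤ (D_i + 1) / 2` and all real `τ` with `|τ| ≤ x ^ A`
`|∑ w (p) (∏ t_i (p) ^ k_i - ∏ μ_(k_i)) p ^ (- i τ)| ≤ x ^ (1 / 2 + δ)`, the sum running over the odd primes `p ≤ x` with the property `Good`. -/
theorem result (b r dd : ℕ) (hb : 2 ≤ b) (hr : 1 ≤ r) (n D d : Fin r → ℕ) (E : ∀ i, Fin (d i) ≃ {μ : Fin (n i + 1) → ℕ // ∑ j, μ j = D i})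
    (e : (Σ i, Fin (d i)) ≃ Fin dd) (δ : ℝ) (hδ : 0 < δ) (A : ℕ) :
    ∃ c : ℝ, 0 < c ∧ ∃ y₀ : ℕ,
    ∀ (K s : Fin dd → ℕ) (y : ℕ), (∀ l, 2 * s l ≤ K l) → y₀ ≤ y →
    ∀ N : Fin dd → ℕ, (∀ l, N l < b ^ K l) → ∀ a : Fin dd → ℕ → ℕ, (∀ l j, a l j < b ∧ a l j ≠ digit b j (N l)) →
    ∀ (κ : Type) (w : κ → ℕ → ℂ) (V : κ → ∀ (i : Fin r) (p : ℕ), Set (Fin (n i + 1) → ZMod p)) (Λ : ℕ → Finset κ), (∀ q p, ‖w q p‖ ≤ 1) →
    (∀ q i p (x : Fin (n i + 1) → ZMod p) (c : ZMod p), x ∈ V q i p → (fun j => c * x j) ∈ V q i p) → (∀ x, (Λ x).card ≤ x ^ A) →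
      (exceptions b K s N a (fun m => ∀ x : ℕ, y ≤ x → (∀ l, (x : ℝ) ≤ Real.exp (c * s l)) → ∀ q ∈ Λ x,
        ∀ k : Fin r → ℕ, (∀ i, k i ≤ (D i + 1) / 2) → ∀ τ : ℝ, |τ| ≤ (x : ℝ) ^ A → ‖partialSum E e (V q) m k (w q) τ x‖ ≤ (x : ℝ) ^ (1 / 2 + δ)) : ℝ) ≤
        1 / (y : ℝ) ^ A * ∏ l, ((K l).choose (s l) : ℝ) := by
  classical
  have hdd : 1 ≤ dd := by
    have := (e ⟨⟨0, hr⟩, (E _).symm ⟨fun j => if j = 0 then D ⟨0, hr⟩ else 0, by simp⟩⟩).2
    omega
  obtain ⟨KS, hKS⟩ : ∃ KS : Finset (Fin r → ℕ), KS = Fintype.piFinset (fun i => range ((D i + 1) / 2 + 1)) := ⟨_, rfl⟩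
  have hmem : ∀ k : Fin r → ℕ, k ∈ KS ↔ ∀ i, k i ≤ (D i + 1) / 2 := by
    intro k
    rw [hKS, Fintype.mem_piFinset]
    simp only [mem_range]
    exact forall_congr' (fun j => by omega)
  -- the constants
  have hj : ∀ k : Fin r → ℕ, ∃ C : ℝ, 0 ≤ C ∧ (k ∈ KS → ∀ (p : ℕ), p.Prime → p ≠ 2 → ∀ (V : ∀ (i : Fin r) (p : ℕ), Set (Fin (n i + 1) → ZMod p)),
      (∀ i (x : Fin (n i + 1) → ZMod p) (c : ZMod p), x ∈ V i p → (fun j => c * x j) ∈ V i p) → (∀ i, (p : ℝ) ^ 2 ≤ points p (V i p)) →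
      |mean dd p (fun m => pr E e V k p m) - ∏ i, mu (k i)| ≤ C / √(p : ℝ)) := by
    intro k
    by_cases hk : k ∈ KS
    · obtain ⟨C, hC, h⟩ := Pool.Agent.X22.SE.joint_s n D d k (fun i => by
        have := (hmem k).1 hk i
        omega) E
      exact ⟨C, hC, fun _ p hp' h2 V hV hN => h p hp' dd e (fun i => V i p) hV hN⟩
    · exact ⟨0, le_rfl, fun h => absurd h hk⟩
  choose C hC hCj using hj
  obtain ⟨CQ, hCQ0, hCQ⟩ := Pool.Agent.X22.SE.high_s n D d E
  have hCQ' : ∀ (p : ℕ), p.Prime → p ≠ 2 → ∀ (V : ∀ (i : Fin r) (p : ℕ), Set (Fin (n i + 1) → ZMod p)),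
      (∀ i (x : Fin (n i + 1) → ZMod p) (c : ZMod p), x ∈ V i p → (fun j => c * x j) ∈ V i p) → (∀ i, (p : ℝ) ^ 2 ≤ points p (V i p)) →
      mean dd p (fun m => Qf E e V p m) ≤ CQ := fun p hp' h2 V hV hN => hCQ p hp' dd e (fun i => V i p) hV hN
  obtain ⟨C₂, hC₂⟩ : ∃ C₂, C₂ = ∑ k ∈ KS, C k := ⟨_, rfl⟩
  have hC₂0 : 0 ≤ C₂ := by
    rw [hC₂]
    exact sum_nonneg (fun k _ => hC k)
  have hCk : ∀ k ∈ KS, C k ≤ C₂ := by
    intro k hk
    rw [hC₂]
    exact single_le_sum (fun k _ => hC k) hk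
  obtain ⟨U, hU⟩ : ∃ U, U = ∑ k ∈ KS, |∏ i, mu (k i)| := ⟨_, rfl⟩
  have hU0 : 0 ≤ U := by
    rw [hU]
    exact sum_nonneg (fun k _ => abs_nonneg _)
  have hUk : ∀ k ∈ KS, |∏ i, mu (k i)| ≤ U := by
    intro k hk
    rw [hU]
    exact single_le_sum (f := fun k : Fin r → ℕ => |∏ i, mu (k i)|) (fun k _ => abs_nonneg _) hk
  obtain ⟨H, hH⟩ : ∃ H, H = C₂ + (1 + U) * CQ := ⟨_, rfl⟩
  have hH0 : 0 ≤ H := by
    rw [hH]
    positivity
  obtain ⟨W, hW⟩ : ∃ W, W = (1 + U) + 4 * H + (2 * CQ + 2 * U ^ 2) := ⟨_, rfl⟩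
  have hW1 : 1 ≤ W := by
    rw [hW]
    have : 0 ≤ 2 * CQ + 2 * U ^ 2 := by positivity
    linarith
  have hW0 : 0 < W := by linarith
  obtain ⟨B, hB⟩ : ∃ B : ℕ, KS.card ≤ 2 ^ B := ⟨KS.card, (Nat.lt_two_pow_self).le⟩
  obtain ⟨c, hc, y₀, h⟩ := mzd_law b dd hb hdd (δ / 2) (by positivity) A (A + B) A
  obtain ⟨x₁, hx₁⟩ := absorb W (δ / 2) hW0.le (by positivity)
  refine ⟨c, hc, y₀ + x₁ + 2, fun K s y hsK hy N hN a ha κ w V Λ hw hV hΛ => ?_⟩
  have h2 := h K s y hsK (by omega) N hN a ha (κ × (Fin r → ℕ)) (fun x => Λ x ×ˢ KS) (fun x hx => by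
      show (Λ x ×ˢ KS).card ≤ _
      rw [card_product, pow_add]
      exact Nat.mul_le_mul (hΛ x) (hB.trans (Nat.pow_le_pow_left hx B)))
    (fun x q p m => w q.1 p * ((zz E e (V q.1) q.2 p m : ℝ) : ℂ)) (fun x q p m _ => by
      show w q.1 p * ((zz E e (V q.1) q.2 p m : ℝ) : ℂ) = w q.1 p * ((zz E e (V q.1) q.2 p (fun i => m i % p) : ℝ) : ℂ)
      rw [← zz_mod])
    (fun x _ => W * Real.sqrt x) (fun x _ q _ => by positivity) ?_ ?_ ?_
    (fun m => ∀ x : ℕ, y ≤ x → (∀ l, (x : ℝ) ≤ Real.exp (c * s l)) → ∀ q ∈ Λ x,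
        ∀ k : Fin r → ℕ, (∀ i, k i ≤ (D i + 1) / 2) → ∀ τ : ℝ, |τ| ≤ (x : ℝ) ^ A → ‖partialSum E e (V q) m k (w q) τ x‖ ≤ (x : ℝ) ^ (1 / 2 + δ)) ?_
  · unfold exceptions
    exact h2
  · -- the bound
    intro x hx q hq p hp' m
    rw [mem_op] at hp'
    rw [mem_product] at hq
    rw [norm_mul, Complex.norm_real, Real.norm_eq_abs]
    have h3 := zz_abs E e (V q.1) q.2 ((hmem _).1 hq.2) p hp'.2.1.one_lt.le m
    have h4 := hUk q.2 hq.2
    have h5 : √(p : ℝ) ≤ √(x : ℝ) := Real.sqrt_le_sqrt (by exact_mod_cast hp'.1)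
    calc ‖w q.1 p‖ * |zz E e (V q.1) q.2 p m| ≤ 1 * ((1 + U) * √(x : ℝ)) := by
          have := hw q.1 p
          have h6 : |zz E e (V q.1) q.2 p m| ≤ (1 + U) * √(x : ℝ) := h3.trans (by gcongr)
          gcongr
      _ ≤ W * Real.sqrt x := by
          rw [one_mul]
          apply mul_le_mul_of_nonneg_right _ (Real.sqrt_nonneg _)
          rw [hW]
          have : 0 ≤ 2 * CQ + 2 * U ^ 2 := by positivity
          linarith
  · -- the means
    intro x hx q hq
    rw [mem_product] at hq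
    have h3 : ∀ p ∈ op x, |mean dd p (fun m => (w q.1 p * ((zz E e (V q.1) q.2 p m : ℝ) : ℂ)).re)| +
        |mean dd p (fun m => (w q.1 p * ((zz E e (V q.1) q.2 p m : ℝ) : ℂ)).im)| ≤ 2 * H * (1 / Real.sqrt p) := by
      intro p hp'
      rw [mem_op] at hp'
      have hp1 : (1 : ℝ) ≤ p := by exact_mod_cast hp'.2.1.one_lt.le
      have hsq : Real.sqrt p ≤ p := by
        rw [Real.sqrt_le_left (by linarith)]
        nlinarith
      have hsp : 0 < Real.sqrt p := Real.sqrt_pos.2 (by linarith)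
      have h4 : |mean dd p (fun m => zz E e (V q.1) q.2 p m)| ≤ H * (1 / Real.sqrt p) := by
        by_cases hNN : ∀ i, (p : ℝ) ^ 2 ≤ points p (V q.1 i p)
        · have hm1 : mean dd p (fun m => zz E e (V q.1) q.2 p m) = mean dd p (fun m => zz E e (V q.1) q.2 p m - (pr E e (V q.1) q.2 p m - ∏ i, mu (q.2 i))) +
              (mean dd p (fun m => pr E e (V q.1) q.2 p m) - ∏ i, mu (q.2 i)) := by
            have e1 : (fun m => zz E e (V q.1) q.2 p m) = fun m => (zz E e (V q.1) q.2 p m - (pr E e (V q.1) q.2 p m - ∏ i, mu (q.2 i))) +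
                (pr E e (V q.1) q.2 p m + (-∏ i, mu (q.2 i))) := by
              funext m
              ring
            rw [e1, Pool.Agent.X22.ND.mean_add', Pool.Agent.X22.ND.mean_add', mean_const dd p hp'.2.1.one_lt.le]
            ring
          have hm2 := Pool.Agent.X22.ND.abs_mean_le dd p (fun m => zz E e (V q.1) q.2 p m - (pr E e (V q.1) q.2 p m - ∏ i, mu (q.2 i)))
            (fun m => (1 + |∏ i, mu (q.2 i)|) * (1 / √(p : ℝ)) * Qf E e (V q.1) p m) (fun m => zz_diff E e (V q.1) q.2 ((hmem _).1 hq.2) p hp'.2.1.one_lt.le hNN m)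
          rw [mean_mul] at hm2
          have hm3 := hCQ' p hp'.2.1 hp'.2.2 (V q.1) (fun i => hV q.1 i p) hNN
          have hm4 := hCj q.2 hq.2 p hp'.2.1 hp'.2.2 (V q.1) (fun i => hV q.1 i p) hNN
          have hu := hUk q.2 hq.2
          have hm5 : (1 + |∏ i, mu (q.2 i)|) * (1 / √(p : ℝ)) * mean dd p (fun m => Qf E e (V q.1) p m) ≤ (1 + U) * (1 / √(p : ℝ)) * CQ := by
            have h0 : 0 ≤ mean dd p (fun m => Qf E e (V q.1) p m) := by
              have h9 := mean_mono dd p (fun _ => (0 : ℝ)) (fun m => Qf E e (V q.1) p m) (fun m => (zero_le_one.trans (Qf_one E e (V q.1) p m)))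
              rwa [mean_const dd p hp'.2.1.one_lt.le] at h9
            gcongr
          have hm6 : C q.2 / √(p : ℝ) ≤ C₂ * (1 / Real.sqrt p) := by
            rw [div_eq_mul_one_div]
            have := hCk q.2 hq.2
            gcongr
          rw [hm1]
          refine (abs_add_le _ _).trans ?_
          calc _ ≤ (1 + U) * (1 / √(p : ℝ)) * CQ + C₂ * (1 / Real.sqrt p) := add_le_add (hm2.trans hm5) (hm4.trans hm6)
            _ = H * (1 / Real.sqrt p) := by
                rw [hH]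
                ring
        · have e0 : (fun m : Fin dd → ℕ => zz E e (V q.1) q.2 p m) = fun _ => 0 := by
            funext m
            unfold zz
            rw [if_neg (fun hG => hNN hG.1)]
          rw [e0, mean_const dd p hp'.2.1.one_lt.le, abs_zero]
          positivity
      have e1 : (fun m => (w q.1 p * ((zz E e (V q.1) q.2 p m : ℝ) : ℂ)).re) = fun m => (w q.1 p).re * zz E e (V q.1) q.2 p m := by
        funext m
        rw [Complex.re_mul_ofReal]
      have e2 : (fun m => (w q.1 p * ((zz E e (V q.1) q.2 p m : ℝ) : ℂ)).im) = fun m => (w q.1 p).im * zz E e (V q.1) q.2 p m := by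
        funext m
        rw [Complex.im_mul_ofReal]
      rw [e1, e2, mean_mul, mean_mul, abs_mul, abs_mul]
      have h5 := (Complex.abs_re_le_norm (w q.1 p)).trans (hw q.1 p)
      have h6 := (Complex.abs_im_le_norm (w q.1 p)).trans (hw q.1 p)
      have h7 : 0 ≤ |mean dd p (fun m => zz E e (V q.1) q.2 p m)| := abs_nonneg _
      nlinarith
    refine (sum_le_sum h3).trans ?_
    rw [← mul_sum]
    have h6 := sum_inv_sqrt x
    calc 2 * H * ∑ p ∈ op x, 1 / Real.sqrt p ≤ 2 * H * (2 * Real.sqrt x) := by gcongr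
      _ = 4 * H * Real.sqrt x := by ring
      _ ≤ W * Real.sqrt x := by
          apply mul_le_mul_of_nonneg_right _ (Real.sqrt_nonneg _)
          rw [hW]
          have : 0 ≤ 2 * CQ + 2 * U ^ 2 := by positivity
          linarith
  · -- the variance
    intro x hx q hq
    rw [mem_product] at hq
    have hone : ∀ p ∈ op x, mean dd p (fun m => ‖w q.1 p * ((zz E e (V q.1) q.2 p m : ℝ) : ℂ)‖ ^ 2) ≤ W ^ 2 := by
      intro p hp'
      rw [mem_op] at hp'
      have hpt : ∀ m, ‖w q.1 p * ((zz E e (V q.1) q.2 p m : ℝ) : ℂ)‖ ^ 2 ≤ zz E e (V q.1) q.2 p m ^ 2 := by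
        intro m
        rw [norm_mul, Complex.norm_real, Real.norm_eq_abs, mul_pow, sq_abs]
        have h5 : ‖w q.1 p‖ ^ 2 ≤ 1 := pow_le_one₀ (norm_nonneg _) (hw q.1 p)
        have h6 : 0 ≤ zz E e (V q.1) q.2 p m ^ 2 := sq_nonneg _
        nlinarith
      refine (mean_mono dd p _ _ hpt).trans ?_
      by_cases hNN : ∀ i, (p : ℝ) ^ 2 ≤ points p (V q.1 i p)
      · have h3 := mean_mono dd p (fun m => zz E e (V q.1) q.2 p m ^ 2) (fun m => 2 * Qf E e (V q.1) p m + 2 * U ^ 2) (fun m => by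
          refine (zz_sq E e (V q.1) q.2 ((hmem _).1 hq.2) p m).trans ?_
          have := hUk q.2 hq.2
          gcongr)
        rw [Pool.Agent.X22.ND.mean_add', mean_mul, mean_const dd p hp'.2.1.one_lt.le] at h3
        have hm3 := hCQ' p hp'.2.1 hp'.2.2 (V q.1) (fun i => hV q.1 i p) hNN
        refine h3.trans ?_
        have h8 : 2 * CQ + 2 * U ^ 2 ≤ W := by
          rw [hW]
          linarith
        have h9 : W ≤ W ^ 2 := by nlinarith
        linarith
      · have e0 : (fun m : Fin dd → ℕ => zz E e (V q.1) q.2 p m ^ 2) = fun _ => 0 := by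
          funext m
          unfold zz
          rw [if_neg (fun hG => hNN hG.1), zero_pow (by norm_num)]
        rw [e0, mean_const dd p hp'.2.1.one_lt.le]
        positivity
    refine (sum_le_sum hone).trans ?_
    rw [sum_const, nsmul_eq_mul, mul_pow, Real.sq_sqrt (Nat.cast_nonneg x), mul_comm]
    have h4 := cardop_le x
    gcongr
  · -- the conclusion
    intro m hm x hyx hxr q hq k hk τ hτ
    have hx0 : (0 : ℝ) < x := by exact_mod_cast (by omega : 0 < x)
    have hx1 : (1 : ℝ) ≤ x := by exact_mod_cast (by omega : 1 ≤ x)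
    have hlx0 : 0 ≤ Real.log x := Real.log_natCast_nonneg x
    have h3 := hm x hyx hxr (q, k) (mem_product.2 ⟨hq, (hmem k).2 hk⟩) τ hτ
    have e1 : partialSum E e (V q) m k (w q) τ x = ∑ p ∈ op x, w q p * ((zz E e (V q) k p m : ℝ) : ℂ) * hp τ p := by
      have hset : (range (x + 1)).filter (fun p => p.Prime ∧ p ≠ 2) = op x := by
        ext p
        rw [mem_filter, mem_range, mem_op]
        constructor
        · rintro ⟨h5, h6⟩
          exact ⟨by omega, h6⟩
        · rintro ⟨h5, h6⟩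
          exact ⟨by omega, h6⟩
      unfold partialSum
      rw [← filter_filter, hset, sum_filter]
      apply sum_congr rfl
      intro p _
      unfold zz
      split_ifs
      · rfl
      · simp
    rw [e1]
    refine h3.trans ?_
    have h6 := hx₁ x (by omega)
    have hpow : (x : ℝ) ^ (1 / 2 + δ) = Real.sqrt x * ((x : ℝ) ^ (δ / 2) * (x : ℝ) ^ (δ / 2)) := by
      rw [← Real.rpow_add hx0, Real.sqrt_eq_rpow, ← Real.rpow_add hx0]
      congr 1
      ring
    rw [hpow]
    have h7 : W ≤ (x : ℝ) ^ (δ / 2) := by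
      refine le_trans ?_ h6
      have : 0 ≤ W * Real.log x := by positivity
      linarith
    calc W * Real.sqrt x * (x : ℝ) ^ (δ / 2) = Real.sqrt x * (W * (x : ℝ) ^ (δ / 2)) := by ring
      _ ≤ _ := by gcongr

end Pool.Agent.Results.MP_2b5912_ag.FewDigitSurfaceSections
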