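import Pool.Agent.X279.IM.Main

/-!
# MP_2b5912_ag: the index in the integral Mumford-Tate conjecture is the index modulo `l`

`G l` is `G(Z_l)` for the Mumford-Tate group `G` of `H^2`, `Γ l` is the image of the `l`-adic
representation (a closed subgroup of `GL(H)(Z_l)`). `BoundedIndex G Γ` is the conclusion of Q1.

* (1) If for all `l > B` the group `G(Z_l)` is saturated and its Lie algebra modulo `l` is
  generated by logarithms of unipotent elements of the reduction modulo `l` (true for all large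
  `l` if `G_Q` is semisimple), then Q1 for `X` is equivalent to: `Γ_l ≤ G(Z_l)` for all `l`, the
  index of the reductions modulo `l` is bounded by some `C`, and `Γ_l` has finite index in
  `G(Z_l)` for the finitely many `l ≤ max B C`.
* (2) For `G = SO(T)`, `T` a lattice of rank at least `5`, this holds without any hypothesis, with
  `B = max 4 |disc T|`.
* (3) One prime: if the index modulo `l` is less than `l`, then `Γ_l` contains all elements of
  `G(Z_l)` congruent to `1` modulo `l` and both indices are equal.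
* (4) `SO(S)(Z_l)` satisfies the hypotheses of (1) and (3) for `l ≥ 5`, `S` unimodular of rank at
  least `5`.
-/

namespace Pool.Agent.Results.MP_2b5912_ag.IndexModEll

open Pool.Agent.X279.IM Matrix

theorem result :
    -- (1)
    (∀ (ι : Type) [Fintype ι] [DecidableEq ι]
      (G Γ : ∀ (ℓ : ℕ) [Fact ℓ.Prime], Subgroup (GL ι ℤ_[ℓ])) (B : ℕ), 2 ≤ B →
      (∀ (ℓ : ℕ) [Fact ℓ.Prime], PadicClosed (Γ ℓ)) →
      (∀ (ℓ : ℕ) [Fact ℓ.Prime], B < ℓ → Saturated (G ℓ) ∧ LieFromUnipotents (G ℓ)) →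
      (BoundedIndex G Γ ↔ BoundedIndexMod B G Γ)) ∧
    -- (2)
    (∀ (ι : Type) [Fintype ι] [DecidableEq ι] (S : Matrix ι ι ℤ), 5 ≤ Fintype.card ι →
      Sᵀ = S → S.det ≠ 0 →
      ∀ Γ : ∀ (ℓ : ℕ) [Fact ℓ.Prime], Subgroup (GL ι ℤ_[ℓ]),
      (∀ (ℓ : ℕ) [Fact ℓ.Prime], PadicClosed (Γ ℓ)) →
      (BoundedIndex (SOInt S) Γ ↔ BoundedIndexMod (max 4 S.det.natAbs) (SOInt S) Γ)) ∧
    -- (3)
    (∀ (ι : Type) [Fintype ι] [DecidableEq ι] (p : ℕ) [Fact p.Prime], 3 ≤ p →
      ∀ G Γ : Subgroup (GL ι ℤ_[p]), Saturated G → LieFromUnipotents G → Γ ≤ G →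
      PadicClosed Γ → (Γ.map red).relIndex (G.map red) < p →
      (∀ g ∈ G, Dv 1 ((g : Matrix ι ι ℤ_[p]) - 1) → g ∈ Γ) ∧
        Γ.relIndex G = (Γ.map red).relIndex (G.map red) ∧ Γ.relIndex G ≠ 0) ∧
    -- (4)
    (∀ (ι : Type) [Fintype ι] [DecidableEq ι] (p : ℕ) [Fact p.Prime], 5 ≤ p →
      5 ≤ Fintype.card ι → ∀ S : Matrix ι ι ℤ_[p], Sᵀ = S → IsUnit S.det →
      Saturated (SOrth S) ∧ LieFromUnipotents (SOrth S)) := by
  refine ⟨?_, ?_, ?_, ?_⟩
  · intro ι _ _ G Γ B hB hcl hgood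
    exact bounded_iff hB hcl hgood
  · intro ι _ _ S hι hT hS Γ hcl
    exact bounded_iff_SO hι hS hT hcl
  · intro ι _ _ p _ hp3 G Γ hs hl hle hcl hlt
    have hker := kernel_le_of_index hp3 hs hl hle hcl hlt
    have he := relIndex_eq hle hker
    exact ⟨fun g hg h1 => hker ⟨hg, (mem_ker_red g).2 h1⟩, he.symm,
      by rw [← he]; exact relIndex_red_ne_zero _ _⟩
  · intro ι _ _ p _ hp5 hι S hT hS
    exact good_SOrth hp5 hι hS hT

end Pool.Agent.Results.MP_2b5912_ag.IndexModEll
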