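import Pool.Agent.X120.OR.Hod

/-!
# The integral Mumford–Tate conjecture for `H^2` of the fibres over `b^(-t)` of families of surfaces with `p_g = 2` and big monodromy

Let `f : X → S` be a family of smooth projective varieties over an open part `S` of the projective line, defined over `ℚ` (or over a number field), with `H^2(X_s, ℚ(1)) = T_s ⊕ N`, where `N` is a constant part
which consists of algebraic classes, and `T`, of rank `n`, is a direct factor with `h^(2,0)(T_s) = 2` (all of `H^(2,0)(X_s)`, if `p_g = 2`), such that the differential Galois group of the Picard–Fuchs system of `T` (the Zariski closure of the monodromy group,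
if the monodromy is not finite) contains the orthogonal group of the form on `T`, for example a Lefschetz pencil of surfaces with `p_g = 2` on a threefold, `T` the vanishing cohomology. We fix a lattice `ℤ^n` in `T`. Let `ω_0`, `ω_1` be a basis of the relative differential forms of degree
two over `ℚ(x)`. We suppose that the period matrix near `x = 0` is `L(log(1/x)) P(x)`, where the entries of `P` are polynomials with any complex coefficients in a system of G-functions with rational coefficients (solutions of a differential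
system with a regular singularity with rational exponents at infinity), the entries of `L(u)` are polynomials, and `L(u)` is invertible. If there is no degeneration at `x = 0` this is so with `L = 1`; for a family over a number
field one uses the direct sum of the conjugates of the differential system, which is defined over `ℚ`; `x = 0` may also be a point with unipotent monodromy. The theorem is also for other families of even weight `w = 2m` with big orthogonal monodromy, if the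
last part `H^p` of the Hodge decomposition which is not zero has dimension two or the two last parts have dimension one.

**Theorem.** Let `b ≥ 2` be an integer. There is a constant `K`, which depends only on the G-functions, `b`, `n` and on a bound `e` for the degrees of the polynomials, such that for all such families and all `N ≥ 2`: for all but at
most `K log N` of the `t ≤ N` the Mumford–Tate group `𝐆` of the fibre `T_t` over `x = b^(-t)` contains `SO(T_t)`, `SO(T_t)(ℤ_ℓ) ⊆ 𝐆(ℤ_ℓ) ⊆ O(T_t)(ℤ_ℓ)` for all primes `ℓ` (so `𝐆 = SO(T_t)`, because it is connected), and the statement of Q1 is true for `T_t` whenever there is a constant `C` such that the images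
`Γ_ℓ` of the Galois group are subgroups of index at most `C` in `SO(T_t)(ℤ_ℓ)`: then `Γ_ℓ` is a subgroup of index at most `2C` in `𝐆(ℤ_ℓ)` for all `ℓ`.

Here the Mumford–Tate group is the intersection of all closed subgroup schemes of `GL_n` over `ℚ` whose complexification contains the image of the cocharacter `μ` of the Hodge structure, as in the problem. That the index of the Galois image in `SO(T)(ℤ_ℓ)` is bounded is a statement on the arithmetic of the
family only: the geometric monodromy group is dense in `O(T)`, by strong approximation (Nori, Weisfeiler) its `ℓ`-adic closures have bounded index, and for each `ℓ` the Galois image of the fibre contains an open subgroup of bounded index for all but finitely many `t` (Cadoret and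
Tamagawa); the fibres outside of a thin set have this property for all `ℓ` (Serre; Cadoret and Moonen). What is new is that the Mumford–Tate group of the fibre is the whole special orthogonal group for all but at most `K log N` of the `t ≤ N`: this was known for `t` outside a countable union of
analytic sets only. For `h^(2,0) > 1` it is not known that Hodge classes in tensor powers of `H^2` are Galois invariant, so the inclusion `Γ_ℓ ⊆ 𝐆(ℤ_ℓ)` in Q1 is not known for the general fibre over a number field. The statement on Lie algebras is `Pool.Agent.Results.MP_6369ef_ag.OrthogonalFamiliesAtPowers`.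

Proof. The eigenvalue `2` of `ad` of the Hodge operator on `so(T)` has multiplicity one, with eigenvector `ω_0 ∧ ω_1`. If the rational Lie algebra of a subgroup scheme which contains the image of `μ` does not contain `so(T)`, then there is a nonzero rational skew form on `T` with value zero at `(ω_0, ω_1)`.
By the counting theorem on values of G-functions on geometric sequences (`Pool.Agent.X120.GS`) for all but few points this relation holds on the orbit of the pair `(ω_0, ω_1)` under the orthogonal group, and this is not possible. From the Lie algebra one gets the Cayley transforms (formal curves in group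
schemes, `Pool.Agent.X120.OR.Cay`), which generate the special orthogonal group (`Pool.Agent.X120.OR.Ref`).
-/

set_option autoImplicit false

open Matrix

open Pool.Agent.X120.BM Pool.Agent.X120.NF Pool.Agent.X120.OR

namespace Pool.Agent.Results.MP_2b5912_ag.OrthogonalFamiliesAtPowers

section
variable {n : ℕ}

/-- an invertible matrix over `ℤ_ℓ` as a matrix over `ℚ_ℓ` -/
noncomputable def toQl (ℓ : ℕ) [Fact ℓ.Prime] (g : Matrix.GeneralLinearGroup (Fin n) ℤ_[ℓ]) : Matrix (Fin n) (Fin n) ℚ_[ℓ] :=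
  (g : Matrix (Fin n) (Fin n) ℤ_[ℓ]).map (algebraMap ℤ_[ℓ] ℚ_[ℓ])

theorem toQl_mul (ℓ : ℕ) [Fact ℓ.Prime] (g g' : Matrix.GeneralLinearGroup (Fin n) ℤ_[ℓ]) : toQl ℓ (g * g') = toQl ℓ g * toQl ℓ g' := by
  unfold toQl
  rw [Units.val_mul, Matrix.map_mul]

theorem toQl_one (ℓ : ℕ) [Fact ℓ.Prime] : toQl ℓ (1 : Matrix.GeneralLinearGroup (Fin n) ℤ_[ℓ]) = 1 := by
  unfold toQl
  rw [Units.val_one, Matrix.map_one _ (map_zero _) (map_one _)]

theorem toQl_inv (ℓ : ℕ) [Fact ℓ.Prime] (g : Matrix.GeneralLinearGroup (Fin n) ℤ_[ℓ]) : toQl ℓ g⁻¹ = (toQl ℓ g)⁻¹ := by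
  symm
  refine Matrix.inv_eq_right_inv ?_
  rw [← toQl_mul, mul_inv_cancel, toQl_one]

/-- `𝐆(ℤ_ℓ)`, where `𝐆` is the Mumford–Tate group of the Hodge structure `H(m)`: the matrices in `GL_n(ℤ_ℓ)` which are points of all closed subgroup schemes of `GL_n` over `ℚ` which contain the image of the cocharacter of the Hodge structure -/
noncomputable def mumfordTate (w m : ℕ) (H : ℕ → Submodule ℂ (Fin n → ℂ)) (ℓ : ℕ) [Fact ℓ.Prime] : Subgroup (Matrix.GeneralLinearGroup (Fin n) ℤ_[ℓ]) where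
  carrier := {g | ∀ 𝒢 : AlgGroup n, 𝒢.ContainsHodge w m H → 𝒢.IsPoint (algebraMap ℚ ℚ_[ℓ]) (toQl ℓ g)}
  mul_mem' := fun {g g'} h h' 𝒢 hc => by
    rw [toQl_mul]
    exact (h 𝒢 hc).mul (h' 𝒢 hc)
  one_mem' := fun 𝒢 _ => by
    rw [toQl_one]
    exact ⟨isUnit_one, 𝒢.one _ _⟩
  inv_mem' := fun {g} h 𝒢 hc => by
    rw [toQl_inv]
    have h1 := h 𝒢 hc
    refine ⟨?_, 𝒢.inv _ _ _ h1.1 h1.2⟩
    rw [← toQl_inv]
    exact IsUnit.of_mul_eq_one (toQl ℓ g) (by rw [← toQl_mul, inv_mul_cancel, toQl_one])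

/-- `O(A)(ℤ_ℓ)`: the matrices in `GL_n(ℤ_ℓ)` which preserve the form `A` -/
noncomputable def orthogonal (A : Matrix (Fin n) (Fin n) ℚ) (ℓ : ℕ) [Fact ℓ.Prime] : Subgroup (Matrix.GeneralLinearGroup (Fin n) ℤ_[ℓ]) where
  carrier := {g | toQl ℓ g * A.map (algebraMap ℚ ℚ_[ℓ]) * (toQl ℓ g)ᵀ = A.map (algebraMap ℚ ℚ_[ℓ])}
  mul_mem' := fun {g g'} h h' => by
    show toQl ℓ (g * g') * _ * _ = _
    rw [toQl_mul, Matrix.transpose_mul]
    have h1 : toQl ℓ g * toQl ℓ g' * A.map (algebraMap ℚ ℚ_[ℓ]) * ((toQl ℓ g')ᵀ * (toQl ℓ g)ᵀ) =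
      toQl ℓ g * (toQl ℓ g' * A.map (algebraMap ℚ ℚ_[ℓ]) * (toQl ℓ g')ᵀ) * (toQl ℓ g)ᵀ := by simp only [Matrix.mul_assoc]
    rw [h1, h', h]
  one_mem' := by
    show toQl ℓ 1 * _ * _ = _
    rw [toQl_one, Matrix.one_mul, Matrix.transpose_one, Matrix.mul_one]
  inv_mem' := fun {g} h => by
    show toQl ℓ g⁻¹ * A.map (algebraMap ℚ ℚ_[ℓ]) * (toQl ℓ g⁻¹)ᵀ = A.map (algebraMap ℚ ℚ_[ℓ])
    have h1 : toQl ℓ g⁻¹ * toQl ℓ g = 1 := by rw [← toQl_mul, inv_mul_cancel, toQl_one]
    have h2 : (toQl ℓ g)ᵀ * (toQl ℓ g⁻¹)ᵀ = 1 := by rw [← Matrix.transpose_mul, h1, Matrix.transpose_one]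
    have h3 : toQl ℓ g * A.map (algebraMap ℚ ℚ_[ℓ]) * (toQl ℓ g)ᵀ = A.map (algebraMap ℚ ℚ_[ℓ]) := h
    calc toQl ℓ g⁻¹ * A.map (algebraMap ℚ ℚ_[ℓ]) * (toQl ℓ g⁻¹)ᵀ
        = toQl ℓ g⁻¹ * (toQl ℓ g * A.map (algebraMap ℚ ℚ_[ℓ]) * (toQl ℓ g)ᵀ) * (toQl ℓ g⁻¹)ᵀ := by rw [h3]
      _ = (toQl ℓ g⁻¹ * toQl ℓ g) * A.map (algebraMap ℚ ℚ_[ℓ]) * ((toQl ℓ g)ᵀ * (toQl ℓ g⁻¹)ᵀ) := by simp only [Matrix.mul_assoc]
      _ = A.map (algebraMap ℚ ℚ_[ℓ]) := by rw [h1, h2, Matrix.one_mul, Matrix.mul_one]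

/-- `SO(A)(ℤ_ℓ)` -/
noncomputable def specialOrthogonal (A : Matrix (Fin n) (Fin n) ℚ) (ℓ : ℕ) [Fact ℓ.Prime] : Subgroup (Matrix.GeneralLinearGroup (Fin n) ℤ_[ℓ]) :=
  orthogonal A ℓ ⊓ MonoidHom.ker (Matrix.GeneralLinearGroup.det (n := Fin n) (R := ℤ_[ℓ]))

/-- The statement for the fibre over `x = b^(-t)`. For all weights `w = 2m`, symmetric forms `A` and Hodge structures with the first bilinear relation such that the upper part of the Hodge decomposition is given by the two period vectors: `SO(A)(ℤ_ℓ) ⊆ 𝐆(ℤ_ℓ) ⊆ O(A)(ℤ_ℓ)`, and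
if the `Γ_ℓ` (images of the Galois group) are subgroups of `SO(A)(ℤ_ℓ)` of index at most `C` then they are subgroups of index at most `2C` in `𝐆(ℤ_ℓ)`. -/
def IntegralConjecture {G : GSystem} {n e : ℕ} (F : OPeriods G n e) (b t : ℕ) : Prop :=
  ∀ (w m : ℕ) (A : Matrix (Fin n) (Fin n) ℚ) (H : ℕ → Submodule ℂ (Fin n → ℂ)), w = 2 * m → Aᵀ = A → IsPolarized w A H → IsTop w H (F.vec b t) →
    (∃ Φ : Matrix (Fin n) (Fin n) ℂ, IsHodgeOperator w H Φ) →
      (∀ (ℓ : ℕ) [Fact ℓ.Prime], specialOrthogonal A ℓ ≤ mumfordTate w m H ℓ ∧ mumfordTate w m H ℓ ≤ orthogonal A ℓ) ∧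
      ∀ (C : ℕ) (Γ : ∀ (ℓ : ℕ) [Fact ℓ.Prime], Subgroup (Matrix.GeneralLinearGroup (Fin n) ℤ_[ℓ])),
        (∀ (ℓ : ℕ) [Fact ℓ.Prime], Γ ℓ ≤ specialOrthogonal A ℓ ∧ (Γ ℓ).relIndex (specialOrthogonal A ℓ) ≠ 0 ∧ (Γ ℓ).relIndex (specialOrthogonal A ℓ) ≤ C) →
        ∀ (ℓ : ℕ) [Fact ℓ.Prime], Γ ℓ ≤ mumfordTate w m H ℓ ∧ (Γ ℓ).relIndex (mumfordTate w m H ℓ) ≠ 0 ∧ (Γ ℓ).relIndex (mumfordTate w m H ℓ) ≤ 2 * C

theorem so_le {G : GSystem} {n e w m : ℕ} {F : OPeriods G n e} {b t : ℕ} (hgen : Generic F b t) {A : Matrix (Fin n) (Fin n) ℚ} {H : ℕ → Submodule ℂ (Fin n → ℂ)}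
    (hA : Aᵀ = A) (hH : IsPolarized w A H) (ht : IsTop w H (F.vec b t)) {Φ : Matrix (Fin n) (Fin n) ℂ} (hop : IsHodgeOperator w H Φ) (ℓ : ℕ) [Fact ℓ.Prime] :
    specialOrthogonal A ℓ ≤ mumfordTate w m H ℓ := by
  intro g hg 𝒢 hc
  refine so_mem hgen hA hH ht hop hc (algebraMap ℚ ℚ_[ℓ]) hg.1 ?_
  have h1 : Matrix.GeneralLinearGroup.det g = 1 := hg.2
  have h2 : (g : Matrix (Fin n) (Fin n) ℤ_[ℓ]).det = 1 := congrArg Units.val h1
  have h3 : (toQl ℓ g).det = algebraMap ℤ_[ℓ] ℚ_[ℓ] (g : Matrix (Fin n) (Fin n) ℤ_[ℓ]).det := (RingHom.map_det _ _).symm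
  rw [h3, h2, map_one]

theorem le_o {n w m : ℕ} {A : Matrix (Fin n) (Fin n) ℚ} {H : ℕ → Submodule ℂ (Fin n → ℂ)} (hm : w = 2 * m) (hH : IsPolarized w A H) (ℓ : ℕ) [Fact ℓ.Prime] :
    mumfordTate w m H ℓ ≤ orthogonal A ℓ := by
  intro g hg
  exact (orth_iff A _ _).1 (hg (orthGroup A) (orth_contains hH hm)).2

/-- the index of `SO(A)(ℤ_ℓ)` in a subgroup of `O(A)(ℤ_ℓ)` is at most two -/
theorem index_two {n : ℕ} {A : Matrix (Fin n) (Fin n) ℚ} (hdet : A.det ≠ 0) (ℓ : ℕ) [Fact ℓ.Prime] {M : Subgroup (Matrix.GeneralLinearGroup (Fin n) ℤ_[ℓ])}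
    (hM : M ≤ orthogonal A ℓ) : (specialOrthogonal A ℓ).relIndex M ≠ 0 ∧ (specialOrthogonal A ℓ).relIndex M ≤ 2 := by
  classical
  -- the determinant on `M`
  let f : M →* ℤ_[ℓ]ˣ := (Matrix.GeneralLinearGroup.det (n := Fin n) (R := ℤ_[ℓ])).comp M.subtype
  have h1 : (specialOrthogonal A ℓ).subgroupOf M = f.ker := by
    ext g
    constructor
    · intro hg
      exact hg.2
    · intro hg
      exact ⟨hM g.2, hg⟩
  have hval : ∀ g : M, f g = 1 ∨ f g = -1 := by
    intro g
    have hg : toQl ℓ (g : Matrix.GeneralLinearGroup (Fin n) ℤ_[ℓ]) * A.map (algebraMap ℚ ℚ_[ℓ]) * (toQl ℓ g)ᵀ = A.map (algebraMap ℚ ℚ_[ℓ]) := hM g.2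
    have h2 := congrArg Matrix.det hg
    rw [Matrix.det_mul, Matrix.det_mul, Matrix.det_transpose] at h2
    have h3 : (A.map (algebraMap ℚ ℚ_[ℓ])).det ≠ 0 := by
      have h4 : (A.map (algebraMap ℚ ℚ_[ℓ])).det = algebraMap ℚ ℚ_[ℓ] A.det := (RingHom.map_det (algebraMap ℚ ℚ_[ℓ]) A).symm
      rw [h4]
      exact (map_ne_zero _).2 hdet
    have h4 : ((toQl ℓ (g : Matrix.GeneralLinearGroup (Fin n) ℤ_[ℓ])).det - 1) * ((toQl ℓ (g : Matrix.GeneralLinearGroup (Fin n) ℤ_[ℓ])).det + 1) = 0 := by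
      have h5 : (((toQl ℓ (g : Matrix.GeneralLinearGroup (Fin n) ℤ_[ℓ])).det - 1) * ((toQl ℓ (g : Matrix.GeneralLinearGroup (Fin n) ℤ_[ℓ])).det + 1)) *
          (A.map (algebraMap ℚ ℚ_[ℓ])).det = 0 := by linear_combination h2
      exact (mul_eq_zero.1 h5).resolve_right h3
    have h6 : (toQl ℓ (g : Matrix.GeneralLinearGroup (Fin n) ℤ_[ℓ])).det = algebraMap ℤ_[ℓ] ℚ_[ℓ] ((f g : ℤ_[ℓ]ˣ) : ℤ_[ℓ]) := (RingHom.map_det _ _).symm
    rw [h6] at h4
    have hinj : Function.Injective (algebraMap ℤ_[ℓ] ℚ_[ℓ]) := IsFractionRing.injective ℤ_[ℓ] ℚ_[ℓ]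
    rcases mul_eq_zero.1 h4 with h7 | h7
    · left
      refine Units.ext (hinj ?_)
      rw [Units.val_one, map_one]
      exact sub_eq_zero.1 h7
    · right
      refine Units.ext (hinj ?_)
      rw [Units.val_neg, Units.val_one, map_neg, map_one]
      exact eq_neg_of_add_eq_zero_left h7
  have hrange : (f.range : Set ℤ_[ℓ]ˣ) ⊆ ({1, -1} : Finset ℤ_[ℓ]ˣ) := by
    rintro _ ⟨g, rfl⟩
    rcases hval g with h | h
    · simp [h]
    · simp [h]
  have hfin : (f.range : Set ℤ_[ℓ]ˣ).Finite := (Finset.finite_toSet _).subset hrange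
  have hfin' : Finite f.range := hfin
  have h2 : (specialOrthogonal A ℓ).relIndex M = Nat.card f.range := by
    unfold Subgroup.relIndex
    rw [h1, Subgroup.index_ker]
  rw [h2]
  constructor
  · exact Nat.card_pos.ne'
  · have h3 : Nat.card f.range ≤ ({1, -1} : Finset ℤ_[ℓ]ˣ).card := by
      have h4 := Set.ncard_le_ncard hrange (Finset.finite_toSet _)
      rw [Set.ncard_coe_finset] at h4
      exact h4
    exact h3.trans (Finset.card_le_two)

end

/-- **The theorem.** -/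
theorem result (G : GSystem) (n e b : ℕ) (hb : 2 ≤ b) :
    ∃ K : ℝ, 0 ≤ K ∧ ∀ F : OPeriods G n e, ∀ N : ℕ, 2 ≤ N →
      (({t : ℕ | 1 ≤ t ∧ t ≤ N ∧ ¬ IntegralConjecture F b t}.ncard : ℕ) : ℝ) ≤ K * Real.log N := by
  obtain ⟨K, hK, hcount⟩ := count_generic G n e b hb
  refine ⟨K, hK, fun F N hN => le_trans ?_ (hcount F N hN)⟩
  refine Nat.cast_le.2 (Set.ncard_le_ncard ?_ ((Set.finite_Iic N).subset fun t ht => ht.2.1))
  rintro t ⟨ht1, htN, hnot⟩
  refine ⟨ht1, htN, fun hgen => hnot ?_⟩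
  intro w m A H hm hA hH htop hΦ
  obtain ⟨Φ, hop⟩ := hΦ
  refine ⟨fun ℓ _ => ⟨so_le hgen hA hH htop hop ℓ, le_o hm hH ℓ⟩, ?_⟩
  intro C Γ hΓ ℓ _
  obtain ⟨h1, h2, h3⟩ := hΓ ℓ
  have h4 : specialOrthogonal A ℓ ≤ mumfordTate w m H ℓ := so_le hgen hA hH htop hop ℓ
  have h5 := index_two hH.nondeg ℓ (le_o hm hH ℓ)
  have h6 := Subgroup.relIndex_mul_relIndex (Γ ℓ) (specialOrthogonal A ℓ) (mumfordTate w m H ℓ) h1 h4
  refine ⟨h1.trans h4, ?_, ?_⟩
  · rw [← h6]
    exact mul_ne_zero h2 h5.1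
  · rw [← h6, mul_comm]
    exact Nat.mul_le_mul h5.2 h3

end Pool.Agent.Results.MP_2b5912_ag.OrthogonalFamiliesAtPowers
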