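import Pool.Agent.X259.U.U45

set_option autoImplicit false

/-!
# The image of Galois in the Mumford-Tate group of `H^2`: one inequality between the numbers of
# Tate classes and Hodge classes of one degree gives semisimplicity and the invariants of low degree

Let `X` be a smooth projective variety over a field `k` finitely generated over `ℚ`, `ℓ` a prime,
`V = H^2(X(ℂ), ℚ(1))` with its Hodge structure `H` of weight `0` and the polarization `Q` given by
an ample class `L` (the form `(x, y) ↦ - ∫ x y L ^ {n - 2}` with the sign changed on `ℚ L`). The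
Galois group `Γ` of `k` acts on `ℚ_ℓ ⊗ V = H^2(X̄, ℚ_ℓ(1))` by `ρ`, and `ω` is the extension of
`Q`, which is invariant. The classes in `V ^ {⊗ 2 m}` are the multilinear forms in `2 m` variables
(indexed by `Fin m × Fin 2`) in `V` or `ℚ_ℓ ⊗ V` (the dual of `V` is `V`, by `Q`).

`C m` is a space of classes in `V ^ {⊗ 2 m}` which are Hodge classes and Tate classes (fixed by an
open subgroup of `Γ`); the spaces `C m` are a *closed family* (`IsClosedFamily`): they contain `1`
and `Q`, and they are stable under permutations, products and contractions with `Q`. For example,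
the absolute Hodge classes (Deligne), the motivated classes (André), or, if `V` is the motive of an
abelian variety (K3 surfaces, ...), all Hodge classes. By Deligne's principle the question
(Serre) implies that all Tate classes are combinations of Hodge classes.

**Theorem.** Let `b = dim V ≥ 1` and `c ≥ 1`, `m` be integers with
`dim TateSpace m ≤ (2 - 1 / c) dim C m` (the part of the Tate classes in `V ^ {⊗ 2 m}` which are
combinations of classes in `C m` is at least `2/3` for `c = 2`, and less than 51 percent is enough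
for `c = 26`).

1. Let `r ≥ 1` and `m ≥ 256 c b ^ 3 r ^ 2 (⌊log₂ (4 b c r)⌋ + 1)`. Then the Tate classes in
   `V ^ {⊗ 2 m'}`, `m' ≤ r`, are exactly the combinations of the classes in `C m'`.
2. **Tate's conjecture for divisors.** Let `m ≥ 256 c b ^ 3 (⌊log₂ (4 b c)⌋ + 1)`. The Tate classes in
   `H^2(X̄, ℚ_ℓ(1))` are combinations of classes of divisors (`D` is the space of the classes of
   divisors; the hypothesis on `D` is a special case of the theorem of Lefschetz on
   (1,1)-classes: the class `y` with `Q (y, u) = ψ (u, L)`, `ψ` a Hodge class in `V ^ {⊗ 2}`, is a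
   Hodge class).
3. **Semisimplicity.** Let `m ≥ 256 c b ^ 5 (⌊log₂ (4 b ^ 2 c)⌋ + 1)`. Then the representation `ρ`
   is semisimple, if the square of the determinant of each subrepresentation is of finite order
   (`Determinants`). This hypothesis is a theorem if `k` is a number field which has a real place:
   the determinant is a character of weight `0` which is Hodge-Tate, so it is given by an
   algebraic Hecke character of weight `0` (Serre), and this is of finite order.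

So if `X` is defined over a number field with a real place (for example over `ℚ`) and the
representation `H^2(X̄, ℚ_ℓ(1))` is not semisimple, or has a Tate class which is not a
combination of classes of divisors, or has more invariants than the Mumford-Tate group in
`V ^ {⊗ 2 m'}`, `m' ≤ r` (in each case the answer to the question is no) then there are
almost twice as many Tate classes as classes in `C m` in all degrees above a polynomial in `b`.
On the other hand, `dim TateSpace m = dim C m` if the answer for `X` is yes and `C m` is the space of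
all Hodge classes.

The proof. We embed `ℚ_ℓ` in the field of complex numbers. The complex combinations of the
classes in `C m` are the invariants of a compact group `G` of unitary matrices (positivity of the
polarization, first fundamental theorem, Haar integration; the form is made alternating by
passing from `V` to `V ⊕ V`). The complex Tate tensors are a family which is stable under
permutations, products and contractions, but there is no positivity. Suppose that there is a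
Tate tensor `F ≠ 0` of degree `2 m' ≤ 2 r` which is orthogonal to the invariants of `G`. The operator
`M = ∫ ⟨F, g F⟩ g dg` on the tensors of degree `2 m` is the average over `G` of `x ⊗ F^*`, contracted
with `F`; so its values are Tate tensors, and it vanishes after averaging over `G`, so
`tr M ≤ ⟨F, F⟩ (dim TateSpace m - dim C m)`. The trace is `∫ ⟨F, g F⟩ (tr g) ^ {2 m} dg`; if the
eigenvalues of `g` or `- g` have arguments at most `θ` then
`Re ⟨F, g F⟩ ≥ cos (2 r θ) ⟨F, F⟩`, and otherwise `|tr g| ≤ b - 2 (1 - cos θ)`. This gives 1, and 2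
follows with the class `φ ⊗ L`. For 3, let `N` be a stable subspace and `f_1, …, f_d` a basis of the
covectors which vanish on `N`. Then `det (f_i (v_j)) det (f_i (v'_j))` is a Tate class in
`V ^ {⊗ 2 d}`, so it is an invariant of `G` by 1. So `G` preserves the span of the `f_i`, and
the orthogonal projector on this span is an invariant of `G` in `V ^ {⊗ 2}`, so it is a complex
combination of classes in `C 1`. A retraction of `ℂ` on `ℚ_ℓ` gives a projector with kernel `N` which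
is a combination of classes in `C 1`, so it commutes with an open subgroup of `Γ`.
-/

noncomputable section

namespace Pool.Agent.Results.MP_2b5912_ag.TwiceAsManyTateClasses

open Module TensorProduct Pool.Agent.X259

variable {ℓ : ℕ} [Fact ℓ.Prime] {V : Type} [AddCommGroup V] [Module ℚ V] {Γ : Type} [Group Γ]

/-- The rational classes in `V ^ {⊗ 2 m}`. -/
abbrev RatForm (V : Type) [AddCommGroup V] [Module ℚ V] (m : ℕ) : Type :=
  MultilinearMap ℚ (fun _ : Fin m × Fin 2 => V) ℚ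

/-- The classes in `(ℚ_ℓ ⊗ V) ^ {⊗ 2 m}`. -/
abbrev Form (ℓ : ℕ) [Fact ℓ.Prime] (V : Type) [AddCommGroup V] [Module ℚ V] (m : ℕ) : Type :=
  MultilinearMap ℚ_[ℓ] (fun _ : Fin m × Fin 2 => ℚ_[ℓ] ⊗[ℚ] V) ℚ_[ℓ]

/-- `φ` is the extension of the rational class `ψ`. -/
def Extends {m : ℕ} (ψ : RatForm V m) (φ : Form ℓ V m) : Prop :=
  ∀ v : Fin m × Fin 2 → V, φ (fun l => (1 : ℚ_[ℓ]) ⊗ₜ[ℚ] v l) = ((ψ v : ℚ) : ℚ_[ℓ])

/-- The space of the linear combinations, with coefficients in `ℚ_ℓ`, of the classes in `C`. -/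
def Span (ℓ : ℕ) [Fact ℓ.Prime] {m : ℕ} (C : Submodule ℚ (RatForm V m)) :
    Submodule ℚ_[ℓ] (Form ℓ V m) :=
  Submodule.span ℚ_[ℓ] {φ : Form ℓ V m | ∃ ψ ∈ C, Extends ψ φ}

/-- The vectors `v` (for the first `m` pairs of variables), and `x, y` for the last pair. -/
def addPair {m : ℕ} (v : Fin m × Fin 2 → V) (x y : V) : Fin (m + 1) × Fin 2 → V :=
  fun p => Fin.lastCases (motive := fun _ => V) (![x, y] p.2) (fun j => v (j, p.2)) p.1

/-- The spaces `C m` are stable under products. -/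
def StableProducts (C : ∀ m : ℕ, Submodule ℚ (RatForm V m)) : Prop :=
  ∀ (m m' : ℕ), ∀ ψ ∈ C m, ∀ ψ' ∈ C m', ∀ ψ'' : RatForm V (m + m'),
    (∀ v, ψ'' v = ψ (fun p => v (Fin.castAdd m' p.1, p.2)) *
      ψ' (fun p => v (Fin.natAdd m p.1, p.2))) → ψ'' ∈ C (m + m')

/-- The spaces `C m` are stable under the contraction of the last two variables with the inverse of
the form `Q`, which is given by dual families `β`, `β'`. -/
def StableContraction (Q : LinearMap.BilinForm ℚ V) (C : ∀ m : ℕ, Submodule ℚ (RatForm V m)) :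
    Prop :=
  ∀ β β' : Fin (finrank ℚ V) → V, (∀ w : V, w = ∑ i, Q w (β' i) • β i) →
    ∀ (m : ℕ), ∀ ψ ∈ C (m + 1), ∀ ψ' : RatForm V m,
      (∀ v, ψ' v = ∑ i, ψ (addPair v (β i) (β' i))) → ψ' ∈ C m

/-- The spaces `C m` of classes in `V ^ {⊗ 2 m}` form a closed family. -/
structure IsClosedFamily (Q : LinearMap.BilinForm ℚ V) (C : ∀ m : ℕ, Submodule ℚ (RatForm V m)) :
    Prop where
  one : ∀ ψ : RatForm V 0, (∀ v, ψ v = 1) → ψ ∈ C 0
  polarization : ∀ ψ : RatForm V 1, (∀ v, ψ v = Q (v (0, 0)) (v (0, 1))) → ψ ∈ C 1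
  perm : ∀ (m : ℕ) (σ : Equiv.Perm (Fin m × Fin 2)), ∀ ψ ∈ C m, ψ.domDomCongr σ ∈ C m
  prod : StableProducts C
  contraction : StableContraction Q C

/-- The space of the Tate classes in `(ℚ_ℓ ⊗ V) ^ {⊗ 2 m}`: the classes which are fixed by a subgroup
of finite index of `Γ`. -/
def TateSpace (ρ : Representation ℚ_[ℓ] Γ (ℚ_[ℓ] ⊗[ℚ] V)) (m : ℕ) :
    Submodule ℚ_[ℓ] (Form ℓ V m) where
  carrier := {φ | ∃ Δ : Subgroup Γ, Δ.FiniteIndex ∧ ∀ s ∈ Δ, ∀ v : Fin m × Fin 2 → ℚ_[ℓ] ⊗[ℚ] V,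
    φ (fun l => ρ s (v l)) = φ v}
  zero_mem' := ⟨⊤, inferInstance, fun s _ v => rfl⟩
  add_mem' := by
    rintro a b ⟨Δ, hΔ, h⟩ ⟨Δ', hΔ', h'⟩
    refine ⟨Δ ⊓ Δ', inferInstance, fun s hs v => ?_⟩
    rw [add_apply, add_apply, h s hs.1, h' s hs.2]
  smul_mem' := by
    rintro c a ⟨Δ, hΔ, h⟩
    refine ⟨Δ, hΔ, fun s hs v => ?_⟩
    rw [smul_apply, smul_apply, h s hs]

/-- The dimension of a space of classes with coefficients in `ℚ_ℓ`. -/
def dimT {m : ℕ} (L : Submodule ℚ_[ℓ] (Form ℓ V m)) : ℕ := finrank ℚ_[ℓ] L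

/-- The dimension of a space of rational classes. -/
def dimC {m : ℕ} (L : Submodule ℚ (RatForm V m)) : ℕ := finrank ℚ L

/-- The second cohomology of a variety: the Hodge structure `H` of weight `0` on `V` with the
polarization `Q`, the action `ρ` of the Galois group on `ℚ_ℓ ⊗ V`, which preserves the extension `ω`
of `Q`, and the closed family `C` of classes which are Hodge classes and Tate classes. -/
structure IsSecondCohomology [FiniteDimensional ℚ V] (H : ℤ → ℤ → Submodule ℂ (ℂ ⊗[ℚ] V))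
    (Q : LinearMap.BilinForm ℚ V) (ρ : Representation ℚ_[ℓ] Γ (ℚ_[ℓ] ⊗[ℚ] V))
    (ω : LinearMap.BilinForm ℚ_[ℓ] (ℚ_[ℓ] ⊗[ℚ] V)) (C : ∀ m : ℕ, Submodule ℚ (RatForm V m)) :
    Prop where
  pos : 1 ≤ finrank ℚ V
  hodge : HS.IsHodgeStructure H LinearMap.id
  polarization : HS.IsPolarization H LinearMap.id Q
  form : ∀ u v : V, ω ((1 : ℚ_[ℓ]) ⊗ₜ[ℚ] u) ((1 : ℚ_[ℓ]) ⊗ₜ[ℚ] v) = ((Q u v : ℚ) : ℚ_[ℓ])
  invariant : ∀ s u v, ω (ρ s u) (ρ s v) = ω u v
  closed : IsClosedFamily Q C
  isHodge : ∀ m, ∀ ψ ∈ C m, HS.IsHodgeForm H ψ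
  isTate : ∀ m, ∀ ψ ∈ C m, ∀ φ : Form ℓ V m, Extends ψ φ → φ ∈ TateSpace ρ m

/-- `D` is the space of the classes of divisors, and `L` is the polarization: `L` is fixed by `Γ`, and
the class `y` with `Q (y, u) = ψ (u, L)` is in `D` if `ψ` is in `C 1`. -/
structure IsDivisors (Q : LinearMap.BilinForm ℚ V) (ρ : Representation ℚ_[ℓ] Γ (ℚ_[ℓ] ⊗[ℚ] V))
    (C : ∀ m : ℕ, Submodule ℚ (RatForm V m)) (L : V) (D : Submodule ℚ V) : Prop where
  fixed : ∀ s, ρ s ((1 : ℚ_[ℓ]) ⊗ₜ[ℚ] L) = (1 : ℚ_[ℓ]) ⊗ₜ[ℚ] L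
  pos : Q L L ≠ 0
  mem : ∀ ψ ∈ C 1, ∀ y : V, (∀ u : V, Q y u = ψ fun p => ![u, L] p.2) → y ∈ D

section representations

variable {K M G : Type} [Field K] [AddCommGroup M] [Module K M] [Group G]

/-- `x` is a Tate class in the representation `ρ`: it is fixed by a subgroup of finite index. -/
def IsTateVector (ρ : Representation K G M) (x : M) : Prop :=
  ∃ Δ : Subgroup G, Δ.FiniteIndex ∧ ∀ s ∈ Δ, ρ s x = x

/-- `U` is a subrepresentation. -/
def Stable (ρ : Representation K G M) (U : Submodule K M) : Prop := ∀ s, ∀ x ∈ U, ρ s x ∈ U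

/-- The determinant of `s` on the subrepresentation `U`. -/
def subDet (ρ : Representation K G M) (U : Submodule K M) (hU : Stable ρ U) (s : G) : K :=
  LinearMap.det ((ρ s).restrict (hU s))

/-- The squares of the determinants of the subrepresentations are of finite order. -/
def Determinants (ρ : Representation K G M) : Prop :=
  ∀ (U : Submodule K M) (hU : Stable ρ U),
    ∃ Δ : Subgroup G, Δ.FiniteIndex ∧ ∀ s ∈ Δ, subDet ρ U hU s ^ 2 = 1

/-- The representation is semisimple: subrepresentations have stable complements. -/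
def IsSemisimple (ρ : Representation K G M) : Prop :=
  ∀ U : Submodule K M, Stable ρ U → ∃ U' : Submodule K M, Stable ρ U' ∧ IsCompl U U'

end representations

/-- The numerical hypothesis: `dim TateSpace m ≤ (2 - 1 / c) dim C m`. -/
def Most (ρ : Representation ℚ_[ℓ] Γ (ℚ_[ℓ] ⊗[ℚ] V)) (C : ∀ m : ℕ, Submodule ℚ (RatForm V m))
    (c m : ℕ) : Prop :=
  1 ≤ c ∧ c * dimT (TateSpace ρ m) ≤ (2 * c - 1) * dimC (C m)

/-- **More than half of the Tate classes decide.** -/
theorem result [FiniteDimensional ℚ V] (H : ℤ → ℤ → Submodule ℂ (ℂ ⊗[ℚ] V))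
    (Q : LinearMap.BilinForm ℚ V) (ρ : Representation ℚ_[ℓ] Γ (ℚ_[ℓ] ⊗[ℚ] V))
    (ω : LinearMap.BilinForm ℚ_[ℓ] (ℚ_[ℓ] ⊗[ℚ] V)) (C : ∀ m : ℕ, Submodule ℚ (RatForm V m))
    (hX : IsSecondCohomology H Q ρ ω C) (b : ℕ) (hb : finrank ℚ V = b) :
    (∀ r c m : ℕ, 1 ≤ r → Most ρ C c m →
      256 * c * b ^ 3 * r ^ 2 * (Nat.log 2 (4 * b * c * r) + 1) ≤ m →
      ∀ m' ≤ r, TateSpace ρ m' = Span ℓ (C m')) ∧
    (∀ (L : V) (D : Submodule ℚ V), IsDivisors Q ρ C L D → ∀ c m : ℕ, Most ρ C c m →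
      256 * c * b ^ 3 * (Nat.log 2 (4 * b * c) + 1) ≤ m →
      ∀ x, IsTateVector ρ x →
        x ∈ Submodule.span ℚ_[ℓ] ((fun y : V => (1 : ℚ_[ℓ]) ⊗ₜ[ℚ] y) '' (D : Set V))) ∧
    (∀ c m : ℕ, Most ρ C c m → 256 * c * b ^ 5 * (Nat.log 2 (4 * b ^ 2 * c) + 1) ≤ m →
      Determinants ρ → IsSemisimple ρ) := by
  classical
  subst hb
  obtain ⟨hn, hH, hQ, hωω, hinv, hcl, hCH, hCT⟩ := hX
  -- the dual families
  obtain ⟨γ, γ', hγ⟩ := U.exists_dual_pol hH hQ
  have hC : T.Closed Q γ γ' C :=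
    { one := hcl.one
      pol := hcl.polarization
      perm := hcl.perm
      prod := hcl.prod
      contr := hcl.contraction γ γ' hγ }
  have hbij := U.om_bij (ω := ω) hγ hωω
  have hωρ : ∀ s u v, ω (ρ s u) (ρ s v) = (1 : Γ →* ℚ_[ℓ]) s * ω u v := fun s u v => by
    rw [MonoidHom.one_apply, one_mul, hinv]
  have htate : ∀ (m : ℕ) (φ : Form ℓ V m), φ ∈ TateSpace ρ m ↔
      Pool.Agent.H204R3.GP.IsTateTensor ρ 1 m φ := by
    intro m φ
    constructor
    · rintro ⟨Δ, hΔ, h⟩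
      refine ⟨Δ, hΔ, fun s hs v => ?_⟩
      rw [h s hs, MonoidHom.one_apply, one_pow, one_mul]
    · rintro ⟨Δ, hΔ, h⟩
      refine ⟨Δ, hΔ, fun s hs v => ?_⟩
      rw [h s hs, MonoidHom.one_apply, one_pow, one_mul]
  have hT : ∀ m, ∀ ψ ∈ C m, ∀ φ : Form ℓ V m,
      (∀ v : Fin m × Fin 2 → V, φ (fun l => (1 : ℚ_[ℓ]) ⊗ₜ[ℚ] v l) = ((ψ v : ℚ) : ℚ_[ℓ])) →
      Pool.Agent.H204R3.GP.IsTateTensor ρ 1 m φ := fun m ψ hψ φ hφ =>
    (htate m φ).1 (hCT m ψ hψ φ hφ)
  have low : ∀ r c m : ℕ, 1 ≤ r → Most ρ C c m →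
      256 * c * finrank ℚ V ^ 3 * r ^ 2 * (Nat.log 2 (4 * finrank ℚ V * c * r) + 1) ≤ m →
      ∀ m' ≤ r, ∀ φ ∈ TateSpace ρ m', ∀ lam : ℚ_[ℓ] →ₗ[ℚ] ℚ,
        Pool.Agent.W516.DR.fcmp lam φ ∈ C m' := by
    intro r c m hr hM hm m' hm' φ hφ lam
    exact U.tate_low_hs hH hQ hn hωω hωρ hγ hC hCH hT hr hM.1 hm (TT := TateSpace ρ m)
      (fun φ hφ => (htate m φ).2 hφ) hM.2 hm' φ ((htate m' φ).1 hφ) lam
  refine ⟨?_, ?_, ?_⟩
  · intro r c m hr hM hm m' hm'
    refine le_antisymm (fun φ hφ => Pool.Agent.X259.Q.mem_of_fcmp (C m') (low r c m hr hM hm m' hm' φ hφ)) ?_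
    refine Submodule.span_le.2 ?_
    rintro φ ⟨ψ, hψ, h⟩
    exact hCT m' ψ hψ φ h
  · rintro L D ⟨hL, hLL, hD⟩ c m hM hm x ⟨Δ, hΔ, hx⟩
    let B : ℚ_[ℓ] ⊗[ℚ] V →ₗ[ℚ_[ℓ]] ℚ_[ℓ] ⊗[ℚ] V →ₗ[ℚ_[ℓ]] ℚ_[ℓ] :=
      (ω x).smulRight (ω ((1 : ℚ_[ℓ]) ⊗ₜ[ℚ] L))
    have hB : ∀ u v, B u v = ω x u * ω ((1 : ℚ_[ℓ]) ⊗ₜ[ℚ] L) v := fun u v => rfl
    have h1 : ∀ lam : ℚ_[ℓ] →ₗ[ℚ] ℚ, Pool.Agent.W516.DR.fcmp lam (U.b2K B) ∈ C 1 := by
      refine low 1 c m (le_refl 1) hM (by rw [mul_one, one_pow, mul_one]; exact hm) 1 (le_refl 1)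
        _ ⟨Δ, hΔ, fun s hs v => ?_⟩
      rw [U.b2K_apply, U.b2K_apply, hB, hB]
      congr 1
      · conv_lhs => rw [← hx s hs]
        rw [hinv]
      · conv_lhs => rw [← hL s]
        rw [hinv]
    -- the components of `x`
    have hQs : Function.Surjective Q :=
      (LinearMap.injective_iff_surjective_of_finrank_eq_finrank
        Subspace.dual_finrank_eq.symm).1 (by
          rw [← LinearMap.ker_eq_bot, LinearMap.ker_eq_bot']
          intro z hz
          rw [hγ z]
          refine Finset.sum_eq_zero fun i _ => ?_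
          rw [hz, LinearMap.zero_apply, zero_smul])
    have h2 : ∀ lam : ℚ_[ℓ] →ₗ[ℚ] ℚ, ∃ y ∈ D, ∀ u : V,
        Q y u = lam (ω x ((1 : ℚ_[ℓ]) ⊗ₜ[ℚ] u)) := by
      intro lam
      obtain ⟨y, hy⟩ := hQs (lam ∘ₗ ((ω x).restrictScalars ℚ) ∘ₗ TensorProduct.mk ℚ ℚ_[ℓ] V 1)
      have hy' : ∀ u : V, Q y u = lam (ω x ((1 : ℚ_[ℓ]) ⊗ₜ[ℚ] u)) := fun u =>
        LinearMap.congr_fun hy u
      have h3 : Q L L • y ∈ D := by
        refine hD _ (h1 lam) _ fun u => ?_
        rw [Pool.Agent.W516.DR.fcmp_apply, U.b2K_apply, hB]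
        change _ = lam (ω x ((1 : ℚ_[ℓ]) ⊗ₜ[ℚ] u) * ω ((1 : ℚ_[ℓ]) ⊗ₜ[ℚ] L)
          ((1 : ℚ_[ℓ]) ⊗ₜ[ℚ] L))
        rw [hωω, map_smul, LinearMap.smul_apply, hy', smul_eq_mul, mul_comm (ω x _)]
        have h4 : ((Q L L : ℚ) : ℚ_[ℓ]) * ω x ((1 : ℚ_[ℓ]) ⊗ₜ[ℚ] u) =
            (Q L L) • ω x ((1 : ℚ_[ℓ]) ⊗ₜ[ℚ] u) := by rw [Rat.smul_def]
        rw [h4, map_smul, smul_eq_mul]
      refine ⟨y, ?_, hy'⟩
      have h4 := D.smul_mem (Q L L)⁻¹ h3
      rwa [smul_smul, inv_mul_cancel₀ hLL, one_smul] at h4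
    let C' : Submodule ℚ (MultilinearMap ℚ (fun _ : Unit => V) ℚ) :=
      { carrier := {ψ | ∃ y ∈ D, ∀ v, ψ v = Q y (v ())}
        add_mem' := by
          rintro a c ⟨y, hy, h⟩ ⟨z, hz, h'⟩
          exact ⟨y + z, D.add_mem hy hz, fun v => by
            rw [add_apply, h, h', map_add, LinearMap.add_apply]⟩
        zero_mem' := ⟨0, D.zero_mem, fun v => by rw [map_zero, LinearMap.zero_apply]; rfl⟩
        smul_mem' := by
          rintro c a ⟨y, hy, h⟩
          exact ⟨c • y, D.smul_mem c hy, fun v => by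
            rw [smul_apply, h, map_smul, LinearMap.smul_apply]⟩ }
    have h3 := Pool.Agent.X259.Q.mem_of_fcmp (φ := MultilinearMap.ofSubsingleton ℚ_[ℓ] (ℚ_[ℓ] ⊗[ℚ] V) ℚ_[ℓ]
      () (ω x)) C' fun lam => by
        obtain ⟨y, hy, h⟩ := h2 lam
        refine ⟨y, hy, fun v => ?_⟩
        rw [h, Pool.Agent.W516.DR.fcmp_apply]
        rfl
    have h4 : ∀ φ ∈ Submodule.span ℚ_[ℓ] {φ' : MultilinearMap ℚ_[ℓ]
        (fun _ : Unit => ℚ_[ℓ] ⊗[ℚ] V) ℚ_[ℓ] | ∃ ψ ∈ C', ∀ v : Unit → V,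
          φ' (fun l => (1 : ℚ_[ℓ]) ⊗ₜ[ℚ] v l) = ((ψ v : ℚ) : ℚ_[ℓ])},
        ∃ z ∈ Submodule.span ℚ_[ℓ] ((fun y : V => (1 : ℚ_[ℓ]) ⊗ₜ[ℚ] y) '' (D : Set V)),
          ∀ u, φ (fun _ => u) = ω z u := by
      intro φ hφ
      induction hφ using Submodule.span_induction with
      | mem φ h =>
        obtain ⟨ψ, ⟨y, hy, hψ⟩, h⟩ := h
        refine ⟨(1 : ℚ_[ℓ]) ⊗ₜ[ℚ] y, Submodule.subset_span ⟨y, hy, rfl⟩, fun u => ?_⟩
        induction u using TensorProduct.induction_on with
        | zero =>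
          rw [map_zero]
          exact φ.map_zero
        | tmul a v =>
          have h5 : a ⊗ₜ[ℚ] v = a • ((1 : ℚ_[ℓ]) ⊗ₜ[ℚ] v) := by
            rw [TensorProduct.smul_tmul', smul_eq_mul, mul_one]
          have h6 : (fun _ : Unit => a • ((1 : ℚ_[ℓ]) ⊗ₜ[ℚ] v)) =
              fun i : Unit => (fun _ : Unit => a) i • (fun _ : Unit => (1 : ℚ_[ℓ]) ⊗ₜ[ℚ] v) i := rfl
          rw [h5, h6, MultilinearMap.map_smul_univ, map_smul, hωω]
          have h7 := h fun _ => v
          rw [hψ] at h7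
          rw [h7]
          simp
        | add u v hu hv =>
          rw [map_add, ← hu, ← hv]
          have h5 := φ.map_update_add (fun _ : Unit => u) () u v
          have h6 : ∀ w : ℚ_[ℓ] ⊗[ℚ] V, Function.update (fun _ : Unit => u) () w =
              fun _ => w := fun w => by
            funext i
            exact Function.update_self _ _ _
          rw [h6, h6, h6] at h5
          exact h5
      | zero => exact ⟨0, Submodule.zero_mem _, fun u => by rw [map_zero]; rfl⟩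
      | add a c _ _ ha hc =>
        obtain ⟨z, hz, h⟩ := ha
        obtain ⟨z', hz', h'⟩ := hc
        exact ⟨z + z', Submodule.add_mem _ hz hz', fun u => by
          rw [add_apply, h, h', map_add, LinearMap.add_apply]⟩
      | smul c a _ ha =>
        obtain ⟨z, hz, h⟩ := ha
        exact ⟨c • z, Submodule.smul_mem _ _ hz, fun u => by
          rw [smul_apply, h, map_smul, LinearMap.smul_apply]⟩
    obtain ⟨z, hz, h5⟩ := h4 _ h3
    have h6 : x = z := hbij.1 (LinearMap.ext fun u => h5 u)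
    rw [h6]
    exact hz
  · intro c m hM hm hdet U hU
    exact Pool.Agent.X259.U.semisimple_hs hH hQ hn hωω hωρ hγ hC hCH hT (fun U hU => by
      obtain ⟨Δ, hΔ, h⟩ := hdet U hU
      exact ⟨Δ, hΔ, fun s hs => by rw [MonoidHom.one_apply, one_pow]; exact h s hs⟩) hM.1 hm
      (TT := TateSpace ρ m) (fun φ hφ => (htate m φ).2 hφ) hM.2 U hU

end Pool.Agent.Results.MP_2b5912_ag.TwiceAsManyTateClasses
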